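import Pool.Agent.S7.F.Vdc
import Pool.Agent.S7.P.B

/-! S7: from the contract (kernels, pigeonhole, relation) to the abstract families. -/

set_option autoImplicit false
set_option linter.unusedSectionVars false

namespace Pool.Agent.S7

open MeasureTheory Filter Topology
open scoped ENNReal

variable {K : Type*} [CommGroup K] [TopologicalSpace K] [IsTopologicalGroup K] [CompactSpace K]
  [T2Space K] [SecondCountableTopology K] [MeasurableSpace K] [BorelSpace K]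
  {u : K} {m : Measure K} [IsProbabilityMeasure m] [m.IsHaarMeasure]
  {Z : Type*} [MeasurableSpace Z] [StandardBorelSpace Z] {M : Measure Z} {S : Z ≃ᵐ Z}
  {y : Z → K} {s l : Z → ℝ}
  {E : Type*} [NormedAddCommGroup E] [InnerProductSpace ℂ E] [FiniteDimensional ℂ E]
  [MeasurableSpace E] [BorelSpace E]

theorem itc_rho {Γ : Type*} [Group Γ] (ρ : Γ →* (E ≃ₗᵢ[ℂ] E)) (c : K → Γ) (h : ℕ) (y : K) :
    itc u (fun y => ρ (c y)) h y = ρ (itc u c h y) := by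
  induction h with
  | zero => simp [itc]
  | succ h ih => simp [itc, ih]

theorem Dq_rho {Γ : Type*} [Group Γ] (ρ : Γ →* (E ≃ₗᵢ[ℂ] E)) (c : K → Γ) (q : ℕ) (y : K) :
    Dq u (fun y => ρ (c y)) q y = ρ (Dq u c q y) := itc_rho ρ c q _

theorem sm_opU_F {τ : K → (E ≃ₗᵢ[ℂ] E)} (hτ : FM τ) : StronglyMeasurable (fun y => opU (τ y)) := by
  have h : FM (fun y => opU (τ y)) := fm_comp hτ _
  exact (SimpleFunc.mk (fun y => opU (τ y)) h.2 h.1).stronglyMeasurable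

theorem sm_comp_F {H : Type*} [NormedAddCommGroup H] [InnerProductSpace ℂ H]
    {Ψ : K → (E →L[ℂ] H)} (hΨ : StronglyMeasurable Ψ) {τ : K → (E ≃ₗᵢ[ℂ] E)}
    (hτ : FM τ) : StronglyMeasurable (fun y => (Ψ y).comp (opU (τ y))) :=
  (isBoundedBilinearMap_comp (𝕜 := ℂ) (E := E) (F := E) (G := H)).continuous.comp_stronglyMeasurable
    (hΨ.prodMk (sm_opU_F hτ))

theorem norm_comp_F {H : Type*} [NormedAddCommGroup H] [InnerProductSpace ℂ H]
    (A : E →L[ℂ] H) (h : E ≃ₗᵢ[ℂ] E) : ‖A.comp (opU h)‖ ≤ ‖A‖ := by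
  refine ContinuousLinearMap.opNorm_le_bound _ (norm_nonneg _) fun v => ?_
  have h1 := A.le_opNorm (h v)
  rw [LinearIsometryEquiv.norm_map] at h1
  exact h1

/-- the kernels of the intervals `(α + t, β + t]` -/
theorem exists_Fam (hK : KD K u) (hD : DS u m M S y s l) {Γ : Type*} [Group Γ] [Finite Γ]
    (ρ : Γ →* (E ≃ₗᵢ[ℂ] E)) (hρ : Ir ρ) {c : K → Γ} (hc : FM c) (hm : Mi u m c) {α β : ℝ}
    (hαβ : α ≤ β) :
    ∃ Φ : ℝ → K → (E →L[ℂ] Lp E 2 M),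
      (∀ t, IsKer m M u S y s l (fun y => ρ (c y)) (α + t) (β + t) (Φ t)) ∧
      Fam m (Real.sqrt (β - α)) Φ := by
  have h := fun t : ℝ => exists_ker hK hD ρ hρ hc hm (α := α + t) (β := β + t) (by linarith)
  choose Φ hΦ using h
  refine ⟨Φ, hΦ, ⟨fun t => (hΦ t).sm, fun t y => ?_, fun t t' => ?_⟩⟩
  · have h1 := (hΦ t).bdd y
    rwa [show β + t - (α + t) = β - α by ring] at h1
  · have h1 := ker_cont hK hD (FM_rho ρ hc) (by linarith) (by linarith) (hΦ t) (hΦ t')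
    rw [show α + t - (α + t') = t - t' by ring, show β + t - (β + t') = t - t' by ring,
      ← two_mul] at h1
    exact h1

theorem rel_of_relation (hK : KD K u) (hD : DS u m M S y s l) {g : K → (E ≃ₗᵢ[ℂ] E)} (hg : FM g)
    {α β : ℝ} {Φ : ℝ → K → (E →L[ℂ] Lp E 2 M)} {C : ℝ}
    (hΦ : ∀ t, IsKer m M u S y s l g (α + t) (β + t) (Φ t)) (hF : Fam m C Φ)
    {q q' : ℕ} (hq : q.Prime) (hq' : q'.Prime) {τ : K → (E ≃ₗᵢ[ℂ] E)} (hτ : FM τ)
    (h : ∀ᵐ y ∂m, τ (u * y) * Dq u g q y = Dq u g q' y * τ y) : Rel m Φ q q' τ := by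
  intro t
  set δ : ℝ := Real.log q' - Real.log q with hδ
  have hp : ∀ n : ℕ, Measurable (fun x : K => x ^ n) := fun n => (continuous_pow n).measurable
  have key := gram (m := m) (K := K) (Ψ₁ := fun x => Φ t (x ^ q))
    (Ψ₂ := fun x => (Φ (t + δ) (x ^ q')).comp (opU (τ x)))
    ((hF.sm t).comp_measurable (hp q))
    (sm_comp_F (Ψ := fun x => Φ (t + δ) (x ^ q')) ((hF.sm (t + δ)).comp_measurable (hp q')) hτ)
    ⟨C, fun y => hF.bdd _ _⟩ ⟨C, fun y => (norm_comp_F _ _).trans (hF.bdd _ _)⟩ ?_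
  · exact key
  · intro a b ha hb
    have h1 := relation hK hD hg hq hq' hτ h (α + t) (β + t) ha hb
    unfold BJ at h1
    rw [ker_Vq hK hD hg (hΦ t) hq.one_le ha, ker_Vq hK hD hg (hΦ t) hq.one_le hb] at h1
    refine Eq.trans h1 ?_
    have h2 := hΦ (t + δ)
    rw [← add_assoc, ← add_assoc] at h2
    rw [ker_Vq hK hD hg h2 hq'.one_le (BMf_app hτ ha), ker_Vq hK hD hg h2 hq'.one_le (BMf_app hτ hb)]
    rfl

/-- the supply of pairs -/
theorem sup_of_pigeon (hK : KD K u) (hD : DS u m M S y s l) {Γ : Type*} [Group Γ] [Finite Γ]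
    (ρ : Γ →* (E ≃ₗᵢ[ℂ] E)) {c : K → Γ} (hc : FM c) {α β : ℝ}
    (G : Subgroup (E ≃ₗᵢ[ℂ] E))
    (hp : ∃ (R : ℕ) (η₀ : ℝ), 0 < η₀ ∧ ∀ η : ℝ, 0 < η → η < η₀ → ∀ (B : Set ℕ), Thin B →
      ∀ Q : ℕ, 1 ≤ Q → ∀ P₀ : ℕ, ∃ q q' : ℕ, q.Prime ∧ q'.Prime ∧ q ∉ B ∧ q' ∉ B ∧
        q % Q = 1 % Q ∧ q' % Q = 1 % Q ∧ P₀ ≤ q ∧ (1 + η) * q ≤ q' ∧
        (q' : ℝ) ≤ (1 + η) ^ (2 * R + 1) * q ∧
        ∃ τ : K → (E ≃ₗᵢ[ℂ] E), FM τ ∧ (∀ y, τ y ∈ G) ∧
          ∀ᵐ y ∂m, τ (u * y) * ρ (Dq u c q y) = ρ (Dq u c q' y) * τ y)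
    {Φ : ℝ → K → (E →L[ℂ] Lp E 2 M)} {C : ℝ}
    (hΦ : ∀ t, IsKer m M u S y s l (fun y => ρ (c y)) (α + t) (β + t) (Φ t)) (hF : Fam m C Φ) :
    Sup m G Φ := by
  obtain ⟨R, η₀, hη₀, hp⟩ := hp
  intro ρ₀ hρ₀
  set η : ℝ := min (η₀ / 2) (ρ₀ / (2 * R + 1)) with hη
  have hR : (0 : ℝ) < 2 * R + 1 := by positivity
  have hη0 : 0 < η := lt_min (by positivity) (by positivity)
  have hη1 : η < η₀ := (min_le_left _ _).trans_lt (by linarith)
  have hη2 : (2 * R + 1) * η ≤ ρ₀ := by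
    have : η ≤ ρ₀ / (2 * R + 1) := min_le_right _ _
    rw [le_div_iff₀ hR] at this
    linarith
  refine ⟨Real.log (1 + η), Real.log_pos (by linarith), fun B hB Q hQ P₀ => ?_⟩
  obtain ⟨q, q', hq, hq', hqB, hqB', hqQ, hqQ', hP, h1, h2, τ, hτ, hτG, hrel⟩ :=
    hp η hη0 hη1 B hB Q hQ P₀
  have hq0 : (0 : ℝ) < q := by exact_mod_cast hq.pos
  have hq0' : (0 : ℝ) < q' := by exact_mod_cast hq'.pos
  refine ⟨q, q', τ, hq, hq', hqB, hqB', hqQ, hqQ', hP, ?_, ?_, hτ, hτG, ?_⟩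
  · have h3 := Real.log_le_log (by positivity) h1
    rw [Real.log_mul (by positivity) hq0.ne'] at h3
    linarith
  · have h3 := Real.log_le_log hq0' h2
    rw [Real.log_mul (by positivity) hq0.ne', Real.log_pow] at h3
    have h4 : Real.log (1 + η) ≤ η := by
      have := Real.log_le_sub_one_of_pos (show (0 : ℝ) < 1 + η by linarith)
      linarith
    have h5 : ((2 * R + 1 : ℕ) : ℝ) * Real.log (1 + η) ≤ (2 * R + 1) * η := by
      push_cast
      exact mul_le_mul_of_nonneg_left h4 hR.le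
    linarith
  · refine rel_of_relation hK hD (FM_rho ρ hc) hΦ hF hq hq' hτ ?_
    filter_upwards [hrel] with y hy
    rw [Dq_rho, Dq_rho]
    exact hy

/-- `M` is σ-finite -/
theorem sigmaFinite_M (hD : DS u m M S y s l) : SigmaFinite M := by
  have h1 : Measurable (fun z => (y z, s z)) := hD.ym.prodMk hD.sm
  have h2 : SigmaFinite (M.map (fun z => (y z, s z))) := by rw [hD.law]; infer_instance
  exact SigmaFinite.of_map M h1.aemeasurable h2

end Pool.Agent.S7
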