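import Pool.Agent.S7.Cbr

/-! S7: T5 (van der Corput). -/

set_option autoImplicit false
set_option linter.unusedSectionVars false

namespace Pool.Agent.S7

open MeasureTheory Filter Topology
open scoped ENNReal

section fm

variable {K X Y : Type*} [MeasurableSpace K]

theorem fm_comp {f : K → X} (hf : FM f) (F : X → Y) : FM (fun y => F (f y)) := by
  refine ⟨?_, fun x => ?_⟩
  · refine (hf.1.image F).subset ?_
    rintro _ ⟨y, rfl⟩
    exact ⟨f y, ⟨y, rfl⟩, rfl⟩
  · have h : (fun y => F (f y)) ⁻¹' {x} = ⋃ v ∈ (Set.range f ∩ F ⁻¹' {x}), f ⁻¹' {v} := by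
      ext y
      simp
    rw [h]
    exact MeasurableSet.biUnion (hf.1.subset Set.inter_subset_left).countable fun v _ => hf.2 v

theorem fm_prod {f : K → X} {g : K → Y} (hf : FM f) (hg : FM g) : FM (fun y => (f y, g y)) := by
  refine ⟨?_, fun x => ?_⟩
  · refine (hf.1.prod hg.1).subset ?_
    rintro _ ⟨y, rfl⟩
    exact ⟨⟨y, rfl⟩, ⟨y, rfl⟩⟩
  · have h : (fun y => (f y, g y)) ⁻¹' {x} = f ⁻¹' {x.1} ∩ g ⁻¹' {x.2} := by
      ext y
      simp [Prod.ext_iff]
    rw [h]
    exact (hf.2 _).inter (hg.2 _)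

theorem fm_pre {K' : Type*} [MeasurableSpace K'] {f : K → X} (hf : FM f) {φ : K' → K}
    (hφ : Measurable φ) : FM (fun y => f (φ y)) := by
  refine ⟨hf.1.subset ?_, fun x => hφ (hf.2 x)⟩
  rintro _ ⟨y, rfl⟩
  exact ⟨φ y, rfl⟩

theorem fm_const (x : X) : FM (fun _ : K => x) := by
  refine ⟨(Set.finite_singleton x).subset ?_, fun v => ?_⟩
  · rintro _ ⟨y, rfl⟩
    rfl
  · by_cases hx : x = v
    · have : (fun _ : K => x) ⁻¹' {v} = Set.univ := by ext; simp [hx]
      rw [this]; exact MeasurableSet.univ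
    · have : (fun _ : K => x) ⁻¹' {v} = ∅ := by ext; simp [hx]
      rw [this]; exact MeasurableSet.empty

theorem fm_meas_app {V W : Type*} [MeasurableSpace V] [MeasurableSpace W] {f : K → X} (hf : FM f)
    {F : X → V → W} (hF : ∀ x, Measurable (F x)) {a : K → V} (ha : Measurable a) :
    Measurable (fun y => F (f y) (a y)) := by
  intro B hB
  have h : (fun y => F (f y) (a y)) ⁻¹' B = ⋃ v ∈ Set.range f, (f ⁻¹' {v} ∩ a ⁻¹' (F v ⁻¹' B)) := by
    ext y
    simp only [Set.mem_preimage, Set.mem_range, Set.iUnion_exists, Set.iUnion_iUnion_eq',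
      Set.mem_iUnion, Set.mem_inter_iff, Set.mem_singleton_iff]
    constructor
    · intro hy
      exact ⟨y, rfl, hy⟩
    · rintro ⟨i, hi, hy⟩
      rw [hi]
      exact hy
  rw [h]
  exact MeasurableSet.biUnion hf.1.countable fun v _ => (hf.2 v).inter (ha ((hF v) hB))

end fm

variable {K : Type*} [CommGroup K] [TopologicalSpace K] [IsTopologicalGroup K] [CompactSpace K]
  [T2Space K] [SecondCountableTopology K] [MeasurableSpace K] [BorelSpace K]
  {u : K} {m : Measure K} [IsProbabilityMeasure m] [m.IsHaarMeasure]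
  {Z : Type*} [MeasurableSpace Z] [StandardBorelSpace Z] {M : Measure Z} {S : Z ≃ᵐ Z}
  {y : Z → K} {s l : Z → ℝ}
  {E : Type*} [NormedAddCommGroup E] [InnerProductSpace ℂ E] [FiniteDimensional ℂ E]
  [MeasurableSpace E] [BorelSpace E]

theorem FM_itc {Γ : Type*} [Monoid Γ] {g : K → Γ} (hg : FM g) (h : ℕ) : FM (itc u g h) := by
  induction h with
  | zero => exact fm_const 1
  | succ h ih =>
    have h1 : FM (fun y => (g (u ^ h * y), itc u g h y)) :=
      fm_prod (fm_pre hg (measurable_const_mul (u ^ h))) ih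
    exact fm_comp h1 (fun p => p.1 * p.2)

theorem itc_add {Γ : Type*} [Monoid Γ] (g : K → Γ) (a b : ℕ) (y : K) :
    itc u g (a + b) y = itc u g a (u ^ b * y) * itc u g b y := by
  induction a with
  | zero => simp [itc]
  | succ a ih =>
    rw [Nat.succ_add]
    show g (u ^ (a + b) * y) * itc u g (a + b) y = (g (u ^ a * (u ^ b * y)) * itc u g a (u ^ b * y)) * itc u g b y
    rw [ih, pow_add, mul_assoc, mul_assoc]

theorem FM_rho {Γ : Type*} [Group Γ] (ρ : Γ →* (E ≃ₗᵢ[ℂ] E)) {c : K → Γ} (hc : FM c) :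
    FM (fun y => ρ (c y)) := fm_comp hc _

theorem FM_inv {f : K → (E ≃ₗᵢ[ℂ] E)} (hf : FM f) : FM (fun y => (f y)⁻¹) := fm_comp hf _

theorem FM_gauge {g f : K → (E ≃ₗᵢ[ℂ] E)} (hg : FM g) (hf : FM f) :
    FM (fun y => (f (u * y))⁻¹ * g y * f y) :=
  fm_comp (fm_prod (fm_pre hf (measurable_const_mul u)) (fm_prod hg hf))
    (fun p => p.1⁻¹ * p.2.1 * p.2.2)

theorem meas_iso (f : E ≃ₗᵢ[ℂ] E) : Measurable (fun v : E => f v) := f.continuous.measurable

theorem BMf_app {f : K → (E ≃ₗᵢ[ℂ] E)} (hf : FM f) {a : K → E} (ha : BMf a) :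
    BMf (fun y => f y (a y)) := by
  refine ⟨fm_meas_app hf (F := fun x v => x v) meas_iso ha.meas, ?_⟩
  obtain ⟨C, hC⟩ := ha.bdd
  exact ⟨C, fun y => by rw [LinearIsometryEquiv.norm_map]; exact hC y⟩

/-- the vectors `v_h` -/
noncomputable def vh (u : K) (S : Z ≃ᵐ Z) (y : Z → K) (l : Z → ℝ) (g : K → (E ≃ₗᵢ[ℂ] E))
    (a : K → E) (h : ℕ) (z : Z) : E :=
  (l (S^[h] z) : ℂ) • ((itc u g h (y z))⁻¹ (a (u ^ h * y z)))

theorem meas_S (h : ℕ) : Measurable (fun z : Z => S^[h] z) := S.measurable.iterate h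

theorem vh_meas (hD : DS u m M S y s l) {g : K → (E ≃ₗᵢ[ℂ] E)} (hg : FM g) {a : K → E}
    (ha : BMf a) (h : ℕ) : Measurable (vh u S y l g a h) := by
  have h1 : Measurable (fun z => (l (S^[h] z) : ℂ)) :=
    Complex.measurable_ofReal.comp (hD.lm.comp (meas_S h))
  have h2 : Measurable (fun z => ((itc u g h (y z))⁻¹ (a (u ^ h * y z)))) := by
    have h3 : FM (fun z => (itc u g h (y z))⁻¹) := fm_pre (fm_comp (FM_itc hg h) (fun x => x⁻¹)) hD.ym
    exact fm_meas_app h3 (F := fun x v => x v) meas_iso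
      (ha.meas.comp ((measurable_const_mul (u ^ h)).comp hD.ym))
  exact h1.smul h2

theorem l_norm (hD : DS u m M S y s l) (z : Z) : ‖(l z : ℂ)‖ = 1 := by
  rcases hD.l1 z with h | h <;> simp [h]

theorem vh_norm (hD : DS u m M S y s l) (g : K → (E ≃ₗᵢ[ℂ] E)) (a : K → E) (h : ℕ) (z : Z) :
    ‖vh u S y l g a h z‖ = ‖a (u ^ h * y z)‖ := by
  unfold vh
  rw [norm_smul, l_norm hD, one_mul, LinearIsometryEquiv.norm_map]

theorem y_iter (hD : DS u m M S y s l) (h : ℕ) (z : Z) : y (S^[h] z) = u ^ h * y z := by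
  induction h with
  | zero => simp
  | succ h ih => rw [Function.iterate_succ_apply', hD.yS, ih, pow_succ', mul_assoc]

theorem s_iter (hD : DS u m M S y s l) (h : ℕ) (z : Z) : s (S^[h] z) = s z := by
  induction h with
  | zero => simp
  | succ h ih => rw [Function.iterate_succ_apply', hD.sS, ih]

theorem vh_inner (hD : DS u m M S y s l) (g : K → (E ≃ₗᵢ[ℂ] E)) (a : K → E) (h e : ℕ) (z : Z) :
    inner ℂ (vh u S y l g a h z) (vh u S y l g a (e + h) z) =
      inner ℂ (vh u S y l g a 0 (S^[h] z)) (vh u S y l g a e (S^[h] z)) := by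
  unfold vh
  rw [y_iter hD, Function.iterate_zero, id, ← Function.iterate_add_apply]
  have h1 : (itc u g (e + h) (y z))⁻¹ = (itc u g h (y z))⁻¹ * (itc u g e (u ^ h * y z))⁻¹ := by
    rw [itc_add, mul_inv_rev]
  rw [h1]
  have h2 : u ^ (e + h) * y z = u ^ e * (u ^ h * y z) := by rw [pow_add, mul_assoc]
  rw [h2]
  have h3 : (itc u g 0 (u ^ h * y z))⁻¹ = (1 : E ≃ₗᵢ[ℂ] E) := by simp [itc]
  rw [h3, pow_zero, one_mul]
  simp only [inner_smul_left, inner_smul_right]
  have h4 : inner ℂ ((itc u g h (y z))⁻¹ (a (u ^ h * y z)))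
      (((itc u g h (y z))⁻¹ * (itc u g e (u ^ h * y z))⁻¹) (a (u ^ e * (u ^ h * y z)))) =
      inner ℂ ((1 : E ≃ₗᵢ[ℂ] E) (a (u ^ h * y z)))
        ((itc u g e (u ^ h * y z))⁻¹ (a (u ^ e * (u ^ h * y z)))) := by
    exact LinearIsometryEquiv.inner_map_map _ _ _
  rw [h4]

/-- the correlation function `φ_e` -/
noncomputable def phi (u : K) (g : K → (E ≃ₗᵢ[ℂ] E)) (a : K → E) (e : ℕ) (y : K) : ℂ :=
  inner ℂ (a y) ((itc u g e y)⁻¹ (a (u ^ e * y)))

theorem phi_BM {g : K → (E ≃ₗᵢ[ℂ] E)} (hg : FM g) {a : K → E} (ha : BMf a) (e : ℕ) :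
    BMf (phi u g a e) := by
  have h1 : BMf (fun y => (itc u g e y)⁻¹ (a (u ^ e * y))) := by
    refine BMf_app (FM_inv (FM_itc hg e)) ⟨ha.meas.comp (measurable_const_mul _), ?_⟩
    obtain ⟨C, hC⟩ := ha.bdd
    exact ⟨C, fun y => hC _⟩
  refine ⟨ha.meas.inner h1.meas, ?_⟩
  obtain ⟨C, hC⟩ := ha.bdd
  obtain ⟨C', hC'⟩ := h1.bdd
  refine ⟨C * C', fun y => ?_⟩
  exact (norm_inner_le_norm _ _).trans (mul_le_mul (hC y) (hC' y) (norm_nonneg _)
    ((norm_nonneg _).trans (hC y)))

theorem M_J (hD : DS u m M S y s l) (α β : ℝ) :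
    M (s ⁻¹' Set.Ioc α β) = ENNReal.ofReal (β - α) := by
  have h1 : M (s ⁻¹' Set.Ioc α β) = (M.map (fun z => (y z, s z))) (Set.univ ×ˢ Set.Ioc α β) := by
    rw [Measure.map_apply (hD.ym.prodMk hD.sm) (MeasurableSet.univ.prod measurableSet_Ioc)]
    congr 1
    ext z
    simp
  rw [h1, hD.law, Measure.prod_prod, measure_univ, one_mul, Real.volume_Ioc]

theorem vdc (hK : KD K u) (hD : DS u m M S y s l) {g : K → (E ≃ₗᵢ[ℂ] E)} (hg : FM g) {α β : ℝ}
    (hαβ : α ≤ β) {a : K → E} (ha : BMf a) {C : ℝ} (hC : ∀ y, ‖a y‖ ≤ C) {H : ℕ} (hH : 1 ≤ H)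
    {δ : ℝ} (hδ : 0 ≤ δ)
    (h : ∀ e, 1 ≤ e → e < H → ‖∫ z in s ⁻¹' Set.Ioc α β,
      (l z : ℂ) * (l (S^[e] z) : ℂ) * phi u g a e (y z) ∂M‖ ≤ δ) :
    ‖TJ M u S y s l g α β a‖ ^ 2 ≤ (β - α) * C ^ 2 / H + 2 * δ := by
  set MJ := M.restrict (s ⁻¹' Set.Ioc α β) with hMJ
  have hJm : MeasurableSet (s ⁻¹' Set.Ioc α β) := hD.sm measurableSet_Ioc
  have hfin : IsFiniteMeasure MJ := ⟨by
    rw [hMJ, Measure.restrict_apply MeasurableSet.univ, Set.univ_inter, M_J hD]
    exact ENNReal.ofReal_lt_top⟩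
  have hreal : MJ.real Set.univ = β - α := by
    rw [Measure.real, hMJ, Measure.restrict_apply MeasurableSet.univ, Set.univ_inter, M_J hD,
      ENNReal.toReal_ofReal (by linarith)]
  have hC0 : 0 ≤ C := (norm_nonneg _).trans (hC 1)
  have hHp : (0 : ℝ) < H := by exact_mod_cast hH
  have hmeas : ∀ h, Measurable (vh u S y l g a h) := vh_meas hD hg ha
  have hn : ∀ h z, ‖vh u S y l g a h z‖ ≤ C := fun h z => by rw [vh_norm hD]; exact hC _
  -- S^h preserves MJ
  have hSJ : ∀ h, MeasurePreserving (fun z : Z => S^[h] z) MJ MJ := by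
    intro h
    have h1 : MeasurePreserving (fun z : Z => S^[h] z) M M := hD.inv.iterate h
    have h2 := h1.restrict_preimage hJm
    have h3 : (fun z : Z => S^[h] z) ⁻¹' (s ⁻¹' Set.Ioc α β) = s ⁻¹' Set.Ioc α β := by
      ext z
      simp [s_iter hD]
    rw [h3] at h2
    exact h2
  -- inner products
  have hint : ∀ h k, Integrable (fun z => inner ℂ (vh u S y l g a h z) (vh u S y l g a k z)) MJ := by
    intro h k
    refine Integrable.of_bound ((hmeas h).inner (hmeas k)).aestronglyMeasurable (C * C)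
      (Filter.Eventually.of_forall fun z => ?_)
    exact (norm_inner_le_norm _ _).trans (mul_le_mul (hn h z) (hn k z) (norm_nonneg _) hC0)
  have hshift : ∀ h e, ∫ z, inner ℂ (vh u S y l g a h z) (vh u S y l g a (e + h) z) ∂MJ =
      ∫ z, inner ℂ (vh u S y l g a 0 z) (vh u S y l g a e z) ∂MJ := by
    intro h e
    have h1 : ∫ z, inner ℂ (vh u S y l g a h z) (vh u S y l g a (e + h) z) ∂MJ =
        ∫ z, (fun z => inner ℂ (vh u S y l g a 0 z) (vh u S y l g a e z)) (S^[h] z) ∂MJ := by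
      refine integral_congr_ae (Filter.Eventually.of_forall fun z => ?_)
      exact vh_inner hD g a h e z
    rw [h1]
    have h2 := integral_map (μ := MJ) (hSJ h).measurable.aemeasurable
      (f := fun z => inner ℂ (vh u S y l g a 0 z) (vh u S y l g a e z))
      ((hmeas 0).inner (hmeas e)).aestronglyMeasurable
    rw [← h2, (hSJ h).map_eq]
  have h0 : ∀ e, ∫ z, inner ℂ (vh u S y l g a 0 z) (vh u S y l g a e z) ∂MJ =
      ∫ z, (l z : ℂ) * (l (S^[e] z) : ℂ) * phi u g a e (y z) ∂MJ := by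
    intro e
    refine integral_congr_ae (Filter.Eventually.of_forall fun z => ?_)
    simp only [vh, phi, inner_smul_left, inner_smul_right, itc, inv_one, pow_zero, one_mul,
      Function.iterate_zero, id, Complex.conj_ofReal]
    have h3 : (1 : E ≃ₗᵢ[ℂ] E) (a (y z)) = a (y z) := rfl
    rw [h3]
    ring
  have hdiag : ∀ h, ‖∫ z, inner ℂ (vh u S y l g a h z) (vh u S y l g a h z) ∂MJ‖ ≤ (β - α) * C ^ 2 := by
    intro h
    refine (norm_integral_le_of_norm_le_const (C := C * C) (Filter.Eventually.of_forall fun z => ?_)).trans ?_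
    · exact (norm_inner_le_norm _ _).trans (mul_le_mul (hn h z) (hn h z) (norm_nonneg _) hC0)
    · rw [hreal]
      nlinarith
  have hoff : ∀ h k, h < H → k < H → h ≠ k →
      ‖∫ z, inner ℂ (vh u S y l g a h z) (vh u S y l g a k z) ∂MJ‖ ≤ δ := by
    have hlt : ∀ h k, h < k → k < H →
        ‖∫ z, inner ℂ (vh u S y l g a h z) (vh u S y l g a k z) ∂MJ‖ ≤ δ := by
      intro h' k hk hkH
      obtain ⟨e, rfl⟩ := Nat.exists_eq_add_of_lt hk
      have h1 : h' + e + 1 = (e + 1) + h' := by omega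
      rw [h1, hshift, h0]
      exact h (e + 1) (by omega) (by omega)
    intro h' k hh hk hne
    rcases lt_or_gt_of_ne hne with h1 | h1
    · exact hlt h' k h1 hk
    · have h2 := hlt k h' h1 hh
      have h3 : ∫ z, inner ℂ (vh u S y l g a h' z) (vh u S y l g a k z) ∂MJ =
          (starRingEnd ℂ) (∫ z, inner ℂ (vh u S y l g a k z) (vh u S y l g a h' z) ∂MJ) := by
        rw [← integral_conj]
        refine integral_congr_ae (Filter.Eventually.of_forall fun z => ?_)
        simp [inner_conj_symm]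
      rw [h3, RCLike.norm_conj]
      exact h2
  -- the norm of the average
  have hmem : MemLp (av u S y s l g α β a H) 2 M := by
    have h1 : MemLp (fun z => (H : ℂ)⁻¹ • ∑ h ∈ Finset.range H, vh u S y l g a h z) 2 MJ := by
      refine MemLp.of_bound (Measurable.aestronglyMeasurable ?_) ((H : ℝ)⁻¹ * (H * C))
        (Filter.Eventually.of_forall fun z => ?_)
      · exact (Finset.measurable_sum _ fun h _ => hmeas h).const_smul _
      · rw [norm_smul, norm_inv, Complex.norm_natCast]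
        refine mul_le_mul_of_nonneg_left ?_ (by positivity)
        refine (norm_sum_le _ _).trans ((Finset.sum_le_sum fun h _ => hn h z).trans ?_)
        simp
    rw [hMJ] at h1
    exact (memLp_indicator_iff_restrict hJm).2 h1
  have hle := TJ_le_av hK hD hg α β ha hH
  have hto : toH M (av u S y s l g α β a H) = hmem.toLp _ := by
    unfold toH
    rw [dif_pos hmem]
  have hsq : ‖toH M (av u S y s l g α β a H)‖ ^ 2 =
      ∫ z, ‖(H : ℂ)⁻¹ • ∑ h ∈ Finset.range H, vh u S y l g a h z‖ ^ 2 ∂MJ := by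
    rw [hto]
    have h1 : (‖hmem.toLp _‖ : ℝ) ^ 2 = ∫ z, ‖av u S y s l g α β a H z‖ ^ 2 ∂M := by
      have h2 := @L2.inner_def Z E ℂ _ _ M _ _ (hmem.toLp _) (hmem.toLp _)
      rw [inner_self_eq_norm_sq_to_K] at h2
      have h3 : ∫ z, inner ℂ ((hmem.toLp _ : Lp E 2 M) z) ((hmem.toLp _ : Lp E 2 M) z) ∂M =
          ((∫ z, ‖av u S y s l g α β a H z‖ ^ 2 ∂M : ℝ) : ℂ) := by
        rw [← integral_complex_ofReal]
        refine integral_congr_ae ?_
        filter_upwards [hmem.coeFn_toLp] with z hz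
        rw [hz, inner_self_eq_norm_sq_to_K]
        norm_cast
      rw [h3] at h2
      have h4 := congrArg Complex.re h2
      simpa [← Complex.ofReal_pow] using h4
    rw [h1, hMJ, ← integral_indicator hJm]
    refine integral_congr_ae (Filter.Eventually.of_forall fun z => ?_)
    unfold av
    by_cases hz : z ∈ s ⁻¹' Set.Ioc α β
    · simp only [Set.indicator_of_mem hz]
      rfl
    · simp [Set.indicator_of_notMem hz]
  have hexp : (∫ z, ‖(H : ℂ)⁻¹ • ∑ h ∈ Finset.range H, vh u S y l g a h z‖ ^ 2 ∂MJ : ℝ) =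
      (((H : ℝ)⁻¹) ^ 2) * (∑ h ∈ Finset.range H, ∑ k ∈ Finset.range H,
        ∫ z, inner ℂ (vh u S y l g a h z) (vh u S y l g a k z) ∂MJ).re := by
    have h1 : ∀ z, ‖(H : ℂ)⁻¹ • ∑ h ∈ Finset.range H, vh u S y l g a h z‖ ^ 2 =
        (((H : ℝ)⁻¹) ^ 2) * (∑ h ∈ Finset.range H, ∑ k ∈ Finset.range H,
          inner ℂ (vh u S y l g a h z) (vh u S y l g a k z)).re := by
      intro z
      rw [norm_smul, mul_pow, norm_inv, Complex.norm_natCast]
      congr 1
      have h2 := inner_self_eq_norm_sq_to_K (𝕜 := ℂ) (∑ h ∈ Finset.range H, vh u S y l g a h z)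
      rw [sum_inner] at h2
      have h3 : ∑ h ∈ Finset.range H, ∑ k ∈ Finset.range H,
          inner ℂ (vh u S y l g a h z) (vh u S y l g a k z) =
          ∑ h ∈ Finset.range H, inner ℂ (vh u S y l g a h z) (∑ k ∈ Finset.range H, vh u S y l g a k z) :=
        Finset.sum_congr rfl fun h _ => (inner_sum _ _ _).symm
      rw [h3, h2]
      norm_cast
    rw [integral_congr_ae (Filter.Eventually.of_forall h1), integral_const_mul]
    congr 1
    have h4 : Integrable (fun z => ∑ h ∈ Finset.range H, ∑ k ∈ Finset.range H,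
          inner ℂ (vh u S y l g a h z) (vh u S y l g a k z)) MJ :=
      integrable_finsetSum _ fun h _ => integrable_finsetSum _ fun k _ => hint h k
    have h5 := integral_re h4
    simp only [RCLike.re_to_complex] at h5
    rw [h5, integral_finsetSum _ fun h _ => integrable_finsetSum _ fun k _ => hint h k]
    congr 1
    refine Finset.sum_congr rfl fun h _ => ?_
    rw [integral_finsetSum _ fun k _ => hint h k]
  have hbound : (∑ h ∈ Finset.range H, ∑ k ∈ Finset.range H,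
        ∫ z, inner ℂ (vh u S y l g a h z) (vh u S y l g a k z) ∂MJ).re ≤
      H * ((β - α) * C ^ 2) + H * (H * δ) := by
    refine (Complex.re_le_norm _).trans ((norm_sum_le _ _).trans ?_)
    have h1 : ∀ h ∈ Finset.range H, ‖∑ k ∈ Finset.range H,
        ∫ z, inner ℂ (vh u S y l g a h z) (vh u S y l g a k z) ∂MJ‖ ≤ (β - α) * C ^ 2 + H * δ := by
      intro h hh
      refine (norm_sum_le _ _).trans ?_
      rw [← Finset.add_sum_erase _ _ hh]
      refine add_le_add (hdiag h) ?_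
      refine (Finset.sum_le_sum (g := fun _ => δ) fun k hk => ?_).trans ?_
      · rw [Finset.mem_erase] at hk
        exact hoff h k (Finset.mem_range.1 hh) (Finset.mem_range.1 hk.2) (Ne.symm hk.1)
      · rw [Finset.sum_const, nsmul_eq_mul]
        refine mul_le_mul_of_nonneg_right ?_ hδ
        have : ((Finset.range H).erase h).card ≤ H := by
          refine (Finset.card_le_card (Finset.erase_subset _ _)).trans ?_
          rw [Finset.card_range]
        exact_mod_cast this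
    refine (Finset.sum_le_sum h1).trans ?_
    rw [Finset.sum_const, Finset.card_range, nsmul_eq_mul]
    linarith [mul_add (H : ℝ) ((β - α) * C ^ 2) (H * δ)]
  calc ‖TJ M u S y s l g α β a‖ ^ 2 ≤ ‖toH M (av u S y s l g α β a H)‖ ^ 2 :=
        pow_le_pow_left₀ (norm_nonneg _) hle 2
    _ = (((H : ℝ)⁻¹) ^ 2) * (∑ h ∈ Finset.range H, ∑ k ∈ Finset.range H,
        ∫ z, inner ℂ (vh u S y l g a h z) (vh u S y l g a k z) ∂MJ).re := by rw [hsq, hexp]
    _ ≤ (((H : ℝ)⁻¹) ^ 2) * (H * ((β - α) * C ^ 2) + H * (H * δ)) :=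
        mul_le_mul_of_nonneg_left hbound (by positivity)
    _ = (β - α) * C ^ 2 / H + δ := by
        field_simp
    _ ≤ (β - α) * C ^ 2 / H + 2 * δ := by linarith

end Pool.Agent.S7
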