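import Pool.Agent.S7.F.Glue
import Pool.Agent.S7.P.A
import Pool.Agent.S7.T.A
import Pool.Agent.S7v.Main
import Pool.Agent.S7d.Fin

/-! S7: THEOREM Z from the contract, with the abstract gauge and invariance. -/

set_option autoImplicit false
set_option linter.unusedSectionVars false

namespace Pool.Agent.S7

open MeasureTheory Filter Topology
open scoped ENNReal

variable {K : Type*} [CommGroup K] [TopologicalSpace K] [IsTopologicalGroup K] [CompactSpace K]
  [T2Space K] [SecondCountableTopology K] [MeasurableSpace K] [BorelSpace K]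
  {u : K} {m : Measure K} [IsProbabilityMeasure m] [m.IsHaarMeasure]
  {Z : Type*} [MeasurableSpace Z] [StandardBorelSpace Z] {M : Measure Z} {S : Z ≃ᵐ Z}
  {y : Z → K} {s l : Z → ℝ}

section

variable {E : Type*} [NormedAddCommGroup E] [InnerProductSpace ℂ E] [FiniteDimensional ℂ E]
  [MeasurableSpace E] [BorelSpace E]

/-- all `T_J` of minimal irreducible cocycles vanish -/
theorem TJ_zero (hK : KD K u) (hD : DS u m M S y s l) {Γ : Type*} [Group Γ] [Finite Γ]
    (ρ : Γ →* (E ≃ₗᵢ[ℂ] E)) (hρ : Ir ρ) {c : K → Γ} (hc : FM c) (hm : Mi u m c) {α β : ℝ}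
    (hαβ : α < β) {b : K → E} (hb : BMf b) : TJ M u S y s l (fun y => ρ (c y)) α β b = 0 := by
  by_contra hT
  have hE : Nontrivial E := by
    by_contra h
    rw [not_nontrivial_iff_subsingleton] at h
    apply hT
    apply Lp.ext
    filter_upwards with z
    exact Subsingleton.elim _ _
  obtain ⟨G, hGf, hG1, hG2⟩ := exists_Gh (m := m) hK ρ hρ
  have hp := pigeon hK hD ρ hρ hc hm hαβ hb hT G hG2
  have hMs : SigmaFinite M := sigmaFinite_M hD
  have hE1 : ProperSpace E := FiniteDimensional.proper ℂ E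
  have hE2 : TopologicalSpace.SeparableSpace E := inferInstance
  have hE3 : Fact ((2 : ℝ≥0∞) ≠ ⊤) := ⟨by simp⟩
  have hE4 : SecondCountableTopology (Lp E 2 M) := inferInstance
  obtain ⟨Φ, hΦ, hF⟩ := exists_Fam hK hD ρ hρ hc hm hαβ.le
  have hS := sup_of_pigeon hK hD ρ hc G hp hΦ hF
  obtain ⟨f, hf, hfG, hft⟩ := gaugeA hK hGf hF hS
  set g : K → (E ≃ₗᵢ[ℂ] E) := fun y => ρ (c y) with hgdef
  have hg : FM g := FM_rho ρ hc
  set g' : K → (E ≃ₗᵢ[ℂ] E) := fun y => (f (u * y))⁻¹ * g y * f y with hg'def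
  have hg' : FM g' := FM_gauge hg hf
  set a : K → E := fun y => (f y)⁻¹ (b y) with hadef
  have ha : BMf a := BMf_app (FM_inv hf) hb
  have hfa : (fun y => f y (a y)) = b := by
    funext y
    rw [hadef]
    show (f y * (f y)⁻¹) (b y) = b y
    rw [mul_inv_cancel]
    rfl
  have hinv : ∀ t : ℝ, BJ M u S y s l g' (α + t) (β + t) a a =
      BJ M u S y s l g α β b b := by
    intro t
    have h1 : BJ M u S y s l g (α + t) (β + t) b b = BJ M u S y s l g α β b b := by
      have h3 := invariantA hK hGf hF hS hf hfG hft t ha ha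
      have h4 := hΦ 0
      rw [add_zero, add_zero] at h4
      have h5 : ∀ x, f x (a x) = b x := fun x => congrFun hfa x
      simp only [h5] at h3
      unfold BJ
      rw [(hΦ t).rep b hb, h4.rep b hb]
      exact h3
    have h2 := BJ_intw hK hD hg' hg hf (τ := f) (g := g') (g' := g)
      (Filter.Eventually.of_forall fun y => by rw [hg'def]; group) (α + t) (β + t) ha ha
    rw [hfa] at h2
    rw [← h2, h1]
  obtain ⟨C, hC⟩ := ha.bdd
  have hC0 : 0 ≤ C := (norm_nonneg _).trans (hC 1)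
  set B : ℝ := ‖TJ M u S y s l g α β b‖ ^ 2 with hB
  have hB0 : 0 < B := by
    have : 0 < ‖TJ M u S y s l g α β b‖ := norm_pos_iff.2 hT
    positivity
  have hnorm : ∀ t : ℝ, ‖TJ M u S y s l g' (α + t) (β + t) a‖ ^ 2 = B := by
    intro t
    have h1 := hinv t
    unfold BJ at h1
    rw [inner_self_eq_norm_sq_to_K, inner_self_eq_norm_sq_to_K] at h1
    have h2 := congrArg Complex.re h1
    have h3 : ‖TJ M u S y s l g' (α + t) (β + t) a‖ = ‖TJ M u S y s l g α β b‖ := by
      simpa [← Complex.ofReal_pow] using h2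
    rw [hB, h3]
  obtain ⟨H, hH⟩ := exists_nat_gt (2 * ((β - α) * C ^ 2) / B + 1)
  have hH1 : 1 ≤ H := by
    have h1 : (0 : ℝ) ≤ 2 * ((β - α) * C ^ 2) / B := by
      have : 0 ≤ β - α := by linarith
      positivity
    have : (1 : ℝ) < H := by linarith
    exact_mod_cast this.le
  have hHp : (0 : ℝ) < H := by exact_mod_cast hH1
  obtain ⟨q, hq, hqe⟩ := thmD hK hD hαβ H (fun i => (i : ℕ) + 1) (fun i => by omega)
    (fun i => phi u g' a ((i : ℕ) + 1)) (fun i => phi_BM hg' ha _) (δ := B / 5) (by positivity)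
  have h3 := vdc hK hD hg' (α := α + (-Real.log q)) (β := β + (-Real.log q)) (by linarith) ha hC hH1
    (δ := B / 5) (by positivity) (by
      intro e he1 he2
      have h4 := hqe ⟨e - 1, by omega⟩
      simp only [Nat.sub_add_cancel he1] at h4
      rw [← sub_eq_add_neg, ← sub_eq_add_neg]
      exact h4.le)
  rw [hnorm] at h3
  have h5 : (β - α) * C ^ 2 / H < B / 2 := by
    rw [div_lt_iff₀ hHp]
    have h6 : 2 * ((β - α) * C ^ 2) / B < H := by linarith
    rw [div_lt_iff₀ hB0] at h6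
    linarith
  have h7 : β + -Real.log ↑q - (α + -Real.log ↑q) = β - α := by ring
  rw [h7] at h3
  linarith

end

theorem thmZ (hK : KD K u) (hD : DS u m M S y s l) (r : ℕ) (σ : K → Equiv.Perm (Fin r))
    (hσ : FM σ) (a : K → Fin r → ℂ) (ha : Measurable a) (hb : ∃ C : ℝ, ∀ y i, ‖a y i‖ ≤ C) (α β : ℝ)
    (i : Fin r) :
    Tendsto (fun H : ℕ => ∫ z in s ⁻¹' Set.Ioc α β,
      ‖(H : ℂ)⁻¹ * ∑ h ∈ Finset.range H,
        (l (S^[h] z) : ℂ) * a (u ^ h * y z) (itc u σ h (y z) i)‖ ^ 2 ∂M) atTop (𝓝 0) := by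
  by_contra hne
  rcases le_or_gt β α with h | h
  · apply hne
    have : Set.Ioc α β = ∅ := Set.Ioc_eq_empty (not_lt.2 h)
    rw [this]
    simp
  obtain ⟨Γ, c, d, ρ, b, hc, hm, hρ, hbb, hT⟩ := reduce hK hD r σ hσ a ha hb α β i hne
  exact hT (TJ_zero hK hD ρ hρ hc hm h hbb)

end Pool.Agent.S7
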